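import Mathlib

set_option autoImplicit false

namespace Pool.Agent.H.MP_603301_co

open Finset

open Classical in
/-- The set of distances between distinct points of `S`. -/
noncomputable def dset {α : Type} [MetricSpace α] (S : Finset α) : Finset ℝ :=
  S.offDiag.image fun p => dist p.1 p.2

/-- `D k n`: the possible numbers of distinct distances determined by `n` distinct points of the
Euclidean space of dimension `k`. -/
def D (k n : ℕ) : Set ℕ :=
  {m | ∃ S : Finset (EuclideanSpace ℝ (Fin k)), S.card = n ∧ (dset S).card = m}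

section
variable {α β : Type} [MetricSpace α] [MetricSpace β]

lemma mem_dset {S : Finset α} {d : ℝ} :
    d ∈ dset S ↔ ∃ x ∈ S, ∃ y ∈ S, x ≠ y ∧ dist x y = d := by
  classical
  simp only [dset, mem_image, mem_offDiag, Prod.exists]
  constructor
  · rintro ⟨x, y, ⟨a, b, c⟩, e⟩; exact ⟨x, a, y, b, c, e⟩
  · rintro ⟨x, a, y, b, c, e⟩; exact ⟨x, y, ⟨a, b, c⟩, e⟩

lemma dset_mono {S T : Finset α} (h : S ⊆ T) : dset S ⊆ dset T := by
  intro d hd
  obtain ⟨x, a, y, b, c, e⟩ := mem_dset.1 hd
  exact mem_dset.2 ⟨x, h a, y, h b, c, e⟩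

lemma transfer (S : Finset α) (f : α → β)
    (hf : ∀ x ∈ S, ∀ y ∈ S, dist (f x) (f y) = dist x y) :
    ∃ T : Finset β, T.card = S.card ∧ dset T = dset S := by
  classical
  have inj : Set.InjOn f S := by
    intro x hx y hy e
    have := hf x hx y hy
    rw [e, dist_self] at this
    exact dist_eq_zero.1 this.symm
  refine ⟨S.image f, card_image_of_injOn inj, ?_⟩
  ext d
  simp only [mem_dset, mem_image]
  constructor
  · rintro ⟨_, ⟨x, a, rfl⟩, _, ⟨y, b, rfl⟩, c, e⟩
    exact ⟨x, a, y, b, fun h => c (h ▸ rfl), (hf x a y b).symm.trans e⟩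
  · rintro ⟨x, a, y, b, c, e⟩
    exact ⟨_, ⟨x, a, rfl⟩, _, ⟨y, b, rfl⟩, fun h => c (inj a b h), (hf x a y b).trans e⟩

lemma between {S T : Finset α} (h : S ⊆ T) (h2 : dset T ⊆ dset S) (n : ℕ) (h3 : S.card ≤ n)
    (h4 : n ≤ T.card) : ∃ U : Finset α, U.card = n ∧ dset U = dset T := by
  obtain ⟨U, u1, u2, u3⟩ := Finset.exists_subsuperset_card_eq h h3 h4
  exact ⟨U, u3, Subset.antisymm (dset_mono u2) (h2.trans (dset_mono u1))⟩

lemma nd_le (S : Finset α) : (dset S).card ≤ S.card.choose 2 := by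
  classical
  rw [← Sym2.card_image_offDiag]
  have : dset S = (S.offDiag.image Sym2.mk.uncurry).image
      (Sym2.lift ⟨fun x y => dist x y, fun x y => dist_comm x y⟩) := by
    rw [image_image]
    unfold dset
    congr
  rw [this]
  exact card_image_le

lemma nd_pos (S : Finset α) (h : 2 ≤ S.card) : 1 ≤ (dset S).card := by
  obtain ⟨x, a, y, b, c⟩ := one_lt_card.1 h
  exact card_pos.2 ⟨_, mem_dset.2 ⟨x, a, y, b, c, rfl⟩⟩

lemma shrink (T : Finset α) (n : ℕ) (h1 : 2 * (dset T).card ≤ n) (h2 : n ≤ T.card) :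
    ∃ U : Finset α, U.card = n ∧ dset U = dset T := by
  classical
  have : ∀ d : dset T, ∃ p : α × α, p.1 ∈ T ∧ p.2 ∈ T ∧ p.1 ≠ p.2 ∧ dist p.1 p.2 = d := by
    intro d
    obtain ⟨x, a, y, b, c, e⟩ := mem_dset.1 d.2
    exact ⟨(x, y), a, b, c, e⟩
  choose p hp using this
  refine between (S := univ.image (fun d => (p d).1) ∪ univ.image (fun d => (p d).2)) ?_ ?_ n ?_ h2
  · intro x hx
    rcases mem_union.1 hx with h | h <;> obtain ⟨d, -, rfl⟩ := mem_image.1 h
    · exact (hp d).1
    · exact (hp d).2.1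
  · intro d hd
    exact mem_dset.2 ⟨_, mem_union_left _ (mem_image_of_mem _ (mem_univ ⟨d, hd⟩)), _,
      mem_union_right _ (mem_image_of_mem _ (mem_univ ⟨d, hd⟩)), (hp ⟨d, hd⟩).2.2.1,
      (hp ⟨d, hd⟩).2.2.2⟩
  · have a := card_union_le (univ.image (fun d => (p d).1)) (univ.image (fun d => (p d).2))
    have b := card_image_le (s := univ) (f := fun d => (p d).1)
    have c := card_image_le (s := univ) (f := fun d => (p d).2)
    rw [card_univ, Fintype.card_coe] at b c
    omega

end

lemma line_lower (A : Finset ℝ) : A.card - 1 ≤ (dset A).card := by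
  rcases A.eq_empty_or_nonempty with rfl | hA
  · simp
  set x := A.min' hA with hx
  rw [← card_erase_of_mem (A.min'_mem hA)]
  apply card_le_card_of_injOn (fun y => y - x)
  · intro y hy
    obtain ⟨h1, h2⟩ := mem_erase.1 hy
    refine mem_dset.2 ⟨y, h2, x, A.min'_mem hA, h1, ?_⟩
    rw [Real.dist_eq, abs_of_nonneg (sub_nonneg.2 (A.min'_le y h2))]
  · intro y _ z _ e
    simpa using e

lemma line_add (A : Finset ℝ) :
    ∃ B : Finset ℝ, B.card = A.card + 1 ∧ (dset B).card = (dset A).card + A.card := by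
  classical
  obtain ⟨M, hM⟩ : ∃ M : ℝ, ∀ a ∈ A, |a| ≤ M := by
    obtain ⟨M, hM⟩ := (A.image fun a => |a|).bddAbove
    exact ⟨M, fun a ha => hM (mem_coe.2 (mem_image_of_mem _ ha))⟩
  set x := 3 * |M| + 1 with hx
  have hb : ∀ a ∈ A, -|M| ≤ a ∧ a ≤ |M| := fun a ha => abs_le.1 ((hM a ha).trans (le_abs_self M))
  have hxA : x ∉ A := fun h => by
    have := hb x h
    have := abs_nonneg M
    linarith
  refine ⟨insert x A, card_insert_of_notMem hxA, ?_⟩
  have e : dset (insert x A) = dset A ∪ A.image (fun a => x - a) := by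
    ext d
    simp only [mem_union, mem_dset, mem_insert, mem_image]
    constructor
    · rintro ⟨u, hu | hu, v, hv | hv, c, e⟩
      · exact absurd (hu.trans hv.symm) c
      · right
        refine ⟨v, hv, ?_⟩
        rw [← e, hu, Real.dist_eq, abs_of_nonneg]
        have := hb v hv
        have := abs_nonneg M
        linarith
      · right
        refine ⟨u, hu, ?_⟩
        rw [← e, hv, dist_comm, Real.dist_eq, abs_of_nonneg]
        have := hb u hu
        have := abs_nonneg M
        linarith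
      · exact Or.inl ⟨u, hu, v, hv, c, e⟩
    · rintro (⟨u, hu, v, hv, c, e⟩ | ⟨a, ha, e⟩)
      · exact ⟨u, Or.inr hu, v, Or.inr hv, c, e⟩
      · refine ⟨x, Or.inl rfl, a, Or.inr ha, fun h => hxA (h ▸ ha), ?_⟩
        rw [← e, Real.dist_eq, abs_of_nonneg]
        have := hb a ha
        have := abs_nonneg M
        linarith
  rw [e, card_union_of_disjoint, card_image_of_injective _ (fun a b h => by simpa using h)]
  rw [Finset.disjoint_left]
  intro d h1 h2
  obtain ⟨u, hu, v, hv, -, e1⟩ := mem_dset.1 h1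
  obtain ⟨a, ha, e2⟩ := mem_image.1 h2
  have := hb u hu
  have := hb v hv
  have := hb a ha
  rw [Real.dist_eq] at e1
  have : |u - v| ≤ 2 * |M| := abs_le.2 ⟨by linarith, by linarith⟩
  linarith

lemma line_base (n m : ℕ) (hn : 2 ≤ n) (h1 : n - 1 ≤ m) (h2 : m ≤ 2 * n - 3) :
    ∃ A : Finset ℝ, A.card = n ∧ (dset A).card = m := by
  classical
  refine ⟨(insert m (range (n - 1))).image Nat.cast, ?_, ?_⟩
  · rw [card_image_of_injective _ Nat.cast_injective, card_insert_of_notMem (by simp; omega),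
      card_range]
    omega
  · have : dset ((insert m (range (n - 1))).image (Nat.cast : ℕ → ℝ)) =
        (Icc 1 m).image (Nat.cast : ℕ → ℝ) := by
      ext d
      simp only [mem_dset, mem_image, mem_insert, mem_range, mem_Icc]
      constructor
      · rintro ⟨_, ⟨u, hu, rfl⟩, _, ⟨v, hv, rfl⟩, c, e⟩
        have c' : u ≠ v := fun h => c (h ▸ rfl)
        rw [Real.dist_eq] at e
        rcases le_total u v with h | h
        · refine ⟨v - u, ⟨by omega, by omega⟩, ?_⟩
          rw [← e, abs_sub_comm, abs_of_nonneg (sub_nonneg.2 (by exact_mod_cast h)),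
            Nat.cast_sub h]
        · refine ⟨u - v, ⟨by omega, by omega⟩, ?_⟩
          rw [← e, abs_of_nonneg (sub_nonneg.2 (by exact_mod_cast h)), Nat.cast_sub h]
      · rintro ⟨s, ⟨s1, s2⟩, rfl⟩
        by_cases hs : s < n - 1
        · refine ⟨_, ⟨s, Or.inr hs, rfl⟩, _, ⟨0, Or.inr (by omega), rfl⟩,
            fun h => by have := Nat.cast_injective (R := ℝ) h; omega, ?_⟩
          rw [Real.dist_eq]; simp
        · refine ⟨_, ⟨m, Or.inl rfl, rfl⟩, _, ⟨m - s, Or.inr (by omega), rfl⟩,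
            fun h => by have := Nat.cast_injective (R := ℝ) h; omega, ?_⟩
          rw [Real.dist_eq, Nat.cast_sub s2]; simp
    rw [this, card_image_of_injective _ Nat.cast_injective]
    simp

lemma line (n : ℕ) (hn : 2 ≤ n) : ∀ m, n - 1 ≤ m → m ≤ n.choose 2 →
    ∃ A : Finset ℝ, A.card = n ∧ (dset A).card = m := by
  induction n, hn using Nat.le_induction with
  | base =>
    intro m h1 h2
    exact line_base 2 m le_rfl h1 (by simpa using h2)
  | succ n hn ih =>
    intro m h1 h2
    by_cases h : m ≤ 2 * (n + 1) - 3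
    · exact line_base (n + 1) m (by omega) h1 h
    · rw [Nat.choose_succ_succ, Nat.choose_one_right] at h2
      obtain ⟨A, a1, a2⟩ := ih (m - n) (by omega) (by
        have : n.choose (Nat.succ 1) = n.choose 2 := rfl
        omega)
      obtain ⟨B, b1, b2⟩ := line_add A
      exact ⟨B, by omega, by omega⟩

lemma upper_range (k n m : ℕ) (hk : 1 ≤ k) (hn : 2 ≤ n) (h1 : n - 1 ≤ m) (h2 : m ≤ n.choose 2) :
    m ∈ D k n := by
  obtain ⟨A, a1, a2⟩ := line n hn m h1 h2
  obtain ⟨T, t1, t2⟩ := transfer A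
    (fun x : ℝ => (EuclideanSpace.single (⟨0, hk⟩ : Fin k) x : EuclideanSpace ℝ (Fin k)))
    (fun x _ y _ => EuclideanSpace.dist_single_same _ x y)
  exact ⟨T, t1.trans a1, t2 ▸ a2⟩

lemma dim_one (n : ℕ) (hn : 2 ≤ n) : D 1 n = Set.Icc (n - 1) (n.choose 2) := by
  ext m
  constructor
  · rintro ⟨S, s1, s2⟩
    obtain ⟨T, t1, t2⟩ := transfer S (fun x => x 0) (fun x _ y _ => by
      rw [EuclideanSpace.dist_eq]; simp)
    have a := line_lower T
    have b := nd_le S
    rw [t1, t2] at a
    rw [← s1, ← s2]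
    exact ⟨a, b⟩
  · rintro ⟨h1, h2⟩
    exact upper_range 1 n m le_rfl hn h1 h2

end Pool.Agent.H.MP_603301_co
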