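import Pool.Agent.H.MP_603301_co.Basic

set_option autoImplicit false

namespace Pool.Agent.H.MP_603301_co

open Finset

open Classical in
/-- `sqCount k x`: the number of integers `s` with `1 ≤ s ≤ x` that are a sum of `k` squares of
integers. -/
noncomputable def sqCount (k x : ℕ) : ℕ :=
  ((Icc 1 x).filter fun s : ℕ => ∃ v : Fin k → ℤ, ∑ i, v i ^ 2 = (s : ℤ)).card

def vec (k : ℕ) (a b c d : ℤ) : Fin k → ℤ := fun i =>
  if i.val = 0 then a else if i.val = 1 then b else if i.val = 2 then c else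
    if i.val = 3 then d else 0

def Good (k : ℕ) (w : Fin k → ℤ) : Prop :=
  ∃ a b c d : ℤ, 0 ≤ d ∧ d ≤ c ∧ c ≤ b ∧ b ≤ a ∧ (k ≤ 2 → c = 0) ∧ (k ≤ 3 → d = 0) ∧
    w = vec k a b c d

lemma vec_dot (k : ℕ) (hk : 2 ≤ k) (a b c d a' b' c' d' : ℤ) (h1 : k ≤ 2 → c = 0)
    (h2 : k ≤ 3 → d = 0) :
    ∑ i, vec k a b c d i * vec k a' b' c' d' i = a * a' + b * b' + c * c' + d * d' := by
  obtain rfl | rfl | h : k = 2 ∨ k = 3 ∨ 4 ≤ k := by omega
  · simp [Fin.sum_univ_succ, vec, h1, h2]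
  · simp [Fin.sum_univ_succ, vec, h2]; ring
  · obtain ⟨j, rfl⟩ : ∃ j, k = j + 4 := ⟨k - 4, by omega⟩
    simp [Fin.sum_univ_succ, vec]; ring

lemma sort2 (a b : ℤ) (ha : 0 ≤ a) (hb : 0 ≤ b) :
    ∃ x y : ℤ, 0 ≤ y ∧ y ≤ x ∧ x ^ 2 + y ^ 2 = a ^ 2 + b ^ 2 := by
  rcases le_total a b with h | h
  · exact ⟨b, a, ha, h, by ring⟩
  · exact ⟨a, b, hb, h, by ring⟩

lemma sort3 (a b c : ℤ) (ha : 0 ≤ a) (hb : 0 ≤ b) (hc : 0 ≤ c) :
    ∃ x y z : ℤ, 0 ≤ z ∧ z ≤ y ∧ y ≤ x ∧ x ^ 2 + y ^ 2 + z ^ 2 = a ^ 2 + b ^ 2 + c ^ 2 := by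
  obtain ⟨x, y, h1, h2, h3⟩ := sort2 a b ha hb
  rcases le_total c y with h | h
  · exact ⟨x, y, c, hc, h, h2, by linarith⟩
  rcases le_total c x with h' | h'
  · exact ⟨x, c, y, h1, h, h', by linarith⟩
  · exact ⟨c, x, y, h1, h2, h', by linarith⟩

lemma sort4 (a b c d : ℤ) (ha : 0 ≤ a) (hb : 0 ≤ b) (hc : 0 ≤ c) (hd : 0 ≤ d) :
    ∃ x y z w : ℤ, 0 ≤ w ∧ w ≤ z ∧ z ≤ y ∧ y ≤ x ∧
      x ^ 2 + y ^ 2 + z ^ 2 + w ^ 2 = a ^ 2 + b ^ 2 + c ^ 2 + d ^ 2 := by
  obtain ⟨x, y, z, h1, h2, h3, h4⟩ := sort3 a b c ha hb hc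
  rcases le_total d z with h | h
  · exact ⟨x, y, z, d, hd, h, h2, h3, by linarith⟩
  rcases le_total d y with h' | h'
  · exact ⟨x, y, d, z, h1, h, h', h3, by linarith⟩
  rcases le_total d x with h'' | h''
  · exact ⟨x, d, y, z, h1, h2, h', h'', by linarith⟩
  · exact ⟨d, x, y, z, h1, h2, h3, h'', by linarith⟩

lemma exists_good_rep (k : ℕ) (hk : 2 ≤ k) (s : ℕ) (v : Fin k → ℤ)
    (hv : ∑ i, v i ^ 2 = (s : ℤ)) : ∃ w, Good k w ∧ ∑ i, w i * w i = (s : ℤ) := by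
  obtain rfl | rfl | h : k = 2 ∨ k = 3 ∨ 4 ≤ k := by omega
  · obtain ⟨x, y, h1, h2, h3⟩ := sort2 |v 0| |v 1| (abs_nonneg _) (abs_nonneg _)
    refine ⟨vec 2 x y 0 0, ⟨x, y, 0, 0, le_rfl, le_rfl, h1, h2, fun _ => rfl, fun _ => rfl, rfl⟩, ?_⟩
    rw [vec_dot 2 le_rfl _ _ _ _ _ _ _ _ (fun _ => rfl) (fun _ => rfl), ← hv]
    simp only [sq_abs] at h3
    rw [Fin.sum_univ_two]
    linarith
  · obtain ⟨x, y, z, h1, h2, h3, h4⟩ := sort3 |v 0| |v 1| |v 2| (abs_nonneg _) (abs_nonneg _)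
      (abs_nonneg _)
    refine ⟨vec 3 x y z 0, ⟨x, y, z, 0, le_rfl, h1, h2, h3, fun h => by omega, fun _ => rfl, rfl⟩,
      ?_⟩
    rw [vec_dot 3 hk _ _ _ _ _ _ _ _ (fun h => by omega) (fun _ => rfl), ← hv]
    simp only [sq_abs] at h4
    rw [Fin.sum_univ_three]
    linarith
  · obtain ⟨a, b, c, d, e⟩ := Nat.sum_four_squares s
    obtain ⟨x, y, z, w, h1, h2, h3, h4, h5⟩ := sort4 a b c d (by positivity) (by positivity)
      (by positivity) (by positivity)
    refine ⟨vec k x y z w, ⟨x, y, z, w, h1, h2, h3, h4, fun h => by omega, fun h => by omega, rfl⟩,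
      ?_⟩
    rw [vec_dot k hk _ _ _ _ _ _ _ _ (fun h => by omega) (fun h => by omega), ← e]
    push_cast
    linarith

lemma cone (a b c d a' b' c' d' : ℤ) (h1 : 0 ≤ d) (h2 : d ≤ c) (h3 : c ≤ b) (h4 : b ≤ a)
    (g1 : 0 ≤ d') (g2 : d' ≤ c') (g3 : c' ≤ b') (g4 : b' ≤ a') :
    (a * a + b * b + c * c + d * d) * (a' * a' + b' * b' + c' * c' + d' * d') ≤
      4 * (a * a' + b * b' + c * c' + d * d') ^ 2 := by
  have c0 : 0 ≤ c := by linarith
  have b0 : 0 ≤ b := by linarith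
  have a0 : 0 ≤ a := by linarith
  have c0' : 0 ≤ c' := by linarith
  have b0' : 0 ≤ b' := by linarith
  have a0' : 0 ≤ a' := by linarith
  have k1 : a * a + b * b + c * c + d * d ≤ a * (a + b + c + d) := by
    nlinarith [mul_nonneg b0 (sub_nonneg.2 h4), mul_nonneg c0 (sub_nonneg.2 (h3.trans h4)),
      mul_nonneg h1 (sub_nonneg.2 (h2.trans (h3.trans h4)))]
  have k2 : a' * a' + b' * b' + c' * c' + d' * d' ≤ a' * (a' + b' + c' + d') := by
    nlinarith [mul_nonneg b0' (sub_nonneg.2 g4), mul_nonneg c0' (sub_nonneg.2 (g3.trans g4)),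
      mul_nonneg g1 (sub_nonneg.2 (g2.trans (g3.trans g4)))]
  have k3 : a * a' ≤ a * a' + b * b' + c * c' + d * d' := by
    nlinarith [mul_nonneg b0 b0', mul_nonneg c0 c0', mul_nonneg h1 g1]
  have k4 : (a + b + c + d) * (a' + b' + c' + d') ≤ 4 * (a * a' + b * b' + c * c' + d * d') := by
    nlinarith [mul_nonneg (sub_nonneg.2 h4) (sub_nonneg.2 g4),
      mul_nonneg (sub_nonneg.2 h3) (sub_nonneg.2 g3),
      mul_nonneg (sub_nonneg.2 h2) (sub_nonneg.2 g2),
      mul_nonneg (sub_nonneg.2 (h3.trans h4)) (sub_nonneg.2 (g3.trans g4)),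
      mul_nonneg (sub_nonneg.2 (h2.trans h3)) (sub_nonneg.2 (g2.trans g3)),
      mul_nonneg (sub_nonneg.2 (h2.trans (h3.trans h4))) (sub_nonneg.2 (g2.trans (g3.trans g4)))]
  calc _ ≤ (a * (a + b + c + d)) * (a' * (a' + b' + c' + d')) :=
        mul_le_mul k1 k2 (by positivity) (by positivity)
    _ = (a * a') * ((a + b + c + d) * (a' + b' + c' + d')) := by ring
    _ ≤ (a * a' + b * b' + c * c' + d * d') * (4 * (a * a' + b * b' + c * c' + d * d')) :=
        mul_le_mul k3 k4 (by positivity) (by positivity)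
    _ = _ := by ring

lemma expand {k : ℕ} (v w : Fin k → ℤ) :
    ∑ i, (v i - w i) ^ 2 = ∑ i, v i * v i + ∑ i, w i * w i - 2 * ∑ i, v i * w i := by
  rw [mul_sum, ← sum_add_distrib, ← sum_sub_distrib]
  exact sum_congr rfl fun i _ => by ring

lemma good_good (k : ℕ) (hk : 2 ≤ k) (v w : Fin k → ℤ) (hv : Good k v) (hw : Good k w) (R : ℤ)
    (h1 : ∑ i, v i * v i ≤ R) (h2 : ∑ i, w i * w i ≤ R) : ∑ i, (v i - w i) ^ 2 ≤ R := by
  obtain ⟨a, b, c, d, a1, a2, a3, a4, a5, a6, rfl⟩ := hv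
  obtain ⟨a', b', c', d', b1, b2, b3, b4, b5, b6, rfl⟩ := hw
  rw [expand]
  rw [vec_dot k hk _ _ _ _ _ _ _ _ a5 a6] at h1
  rw [vec_dot k hk _ _ _ _ _ _ _ _ b5 b6] at h2
  rw [vec_dot k hk _ _ _ _ _ _ _ _ a5 a6, vec_dot k hk _ _ _ _ _ _ _ _ a5 a6,
    vec_dot k hk _ _ _ _ _ _ _ _ b5 b6]
  have key := cone a b c d a' b' c' d' a1 a2 a3 a4 b1 b2 b3 b4
  have hX : 0 ≤ a * a + b * b + c * c + d * d := by
    nlinarith [mul_self_nonneg a, mul_self_nonneg b, mul_self_nonneg c, mul_self_nonneg d]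
  have hY : 0 ≤ a' * a' + b' * b' + c' * c' + d' * d' := by
    nlinarith [mul_self_nonneg a', mul_self_nonneg b', mul_self_nonneg c', mul_self_nonneg d']
  have hZ : 0 ≤ a * a' + b * b' + c * c' + d * d' := by
    have : 0 ≤ c := by linarith
    have : 0 ≤ b := by linarith
    have : 0 ≤ a := by linarith
    have : 0 ≤ c' := by linarith
    have : 0 ≤ b' := by linarith
    have : 0 ≤ a' := by linarith
    positivity
  generalize a * a + b * b + c * c + d * d = X at *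
  generalize a' * a' + b' * b' + c' * c' + d' * d' = Y at *
  generalize a * a' + b * b' + c * c' + d * d' = Z at *
  rcases le_total X Y with h | h
  · have : X ≤ 2 * Z := by
      apply abs_le_of_sq_le_sq' _ (by linarith) |>.2
      nlinarith
    linarith
  · have : Y ≤ 2 * Z := by
      apply abs_le_of_sq_le_sq' _ (by linarith) |>.2
      nlinarith
    linarith

noncomputable def box (k : ℕ) (M L : ℕ) : Finset (Fin k → ℤ) :=
  Fintype.piFinset fun i => if i.val = 0 then Ico (M : ℤ) (M + L) else Ico (0 : ℤ) L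

lemma card_box (k M L : ℕ) : (box k M L).card = L ^ k := by
  rw [box, Fintype.card_piFinset, prod_congr rfl (g := fun _ => L)]
  · simp
  · intro i _
    split_ifs <;> simp

lemma box_box (k M L : ℕ) (v w : Fin k → ℤ) (hv : v ∈ box k M L) (hw : w ∈ box k M L) :
    ∑ i, (v i - w i) ^ 2 ≤ k * (L : ℤ) ^ 2 := by
  have : ∀ i ∈ (univ : Finset (Fin k)), (v i - w i) ^ 2 ≤ (L : ℤ) ^ 2 := by
    intro i _
    have a := Fintype.mem_piFinset.1 hv i
    have b := Fintype.mem_piFinset.1 hw i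
    apply sq_le_sq'
    all_goals split_ifs at a b <;> simp only [mem_Ico] at a b <;> omega
  simpa using sum_le_card_nsmul _ _ _ this

lemma box_good (k L : ℕ) (hk : 2 ≤ k) (v w : Fin k → ℤ) (hv : v ∈ box k ((k + 1) * L) L)
    (hw : Good k w) (R : ℤ) (h2 : ∑ i, w i * w i ≤ R) (hR : 4 * ((k + 1) * L : ℤ) ^ 2 ≤ R) :
    ∑ i, (v i - w i) ^ 2 ≤ R := by
  obtain ⟨j, rfl⟩ : ∃ j, k = j + 1 := ⟨k - 1, by omega⟩
  set M : ℤ := ((j + 1 : ℕ) + 1) * L with hM
  have hb : ∀ i, (if i.val = 0 then M else 0) ≤ v i ∧ v i < (if i.val = 0 then M else 0) + L := by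
    intro i
    have a := Fintype.mem_piFinset.1 hv i
    split_ifs at a ⊢ <;> simp only [mem_Ico] at a
    · push_cast at a hM; rw [hM]; exact a
    · simpa using a
  have L0 : (0 : ℤ) ≤ L := by positivity
  have M0 : 0 ≤ M := by positivity
  obtain ⟨a, b, c, d, a1, a2, a3, a4, a5, a6, hw⟩ := hw
  have w0 : ∀ i, 0 ≤ w i := by
    intro i
    rw [hw]; unfold vec
    split_ifs <;> linarith
  have v0 : ∀ i, 0 ≤ v i := by
    intro i
    have := (hb i).1
    split_ifs at this <;> linarith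
  have e1 : ∑ i, v i * v i ≤ (M + L) ^ 2 + j * (L : ℤ) ^ 2 := by
    rw [Fin.sum_univ_succ]
    apply add_le_add
    · have := (hb 0).2
      simp only [Fin.val_zero, if_true] at this
      nlinarith [v0 0]
    · have : ∀ i ∈ (univ : Finset (Fin j)), v i.succ * v i.succ ≤ (L : ℤ) ^ 2 := by
        intro i _
        have := (hb i.succ).2
        simp only [Fin.val_succ, Nat.succ_ne_zero, if_false] at this
        nlinarith [v0 i.succ]
      simpa using sum_le_card_nsmul _ _ _ this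
  have e2 : M * a ≤ ∑ i, v i * w i := by
    have t1 : v 0 * w 0 ≤ ∑ i, v i * w i :=
      single_le_sum (f := fun i => v i * w i) (fun i _ => mul_nonneg (v0 i) (w0 i)) (mem_univ 0)
    have t2 : w 0 = a := by rw [hw]; simp [vec]
    have t3 := (hb 0).1
    simp only [Fin.val_zero, if_true] at t3
    rw [t2] at t1
    nlinarith
  have e3 : ∑ i, w i * w i ≤ 4 * a ^ 2 := by
    rw [hw, vec_dot _ hk _ _ _ _ _ _ _ _ a5 a6]
    nlinarith
  have a0 : 0 ≤ a := by linarith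
  have e4 : 2 * M * L + (j + 1) * (L : ℤ) ^ 2 ≤ M ^ 2 := by
    have j1 : (1 : ℤ) ≤ j := by exact_mod_cast (by omega : 1 ≤ j)
    rw [hM]; push_cast
    nlinarith [mul_nonneg (sq_nonneg (L : ℤ)) (by nlinarith : (0 : ℤ) ≤ j ^ 2 + j - 1)]
  rw [expand]
  have e5 : ∑ i, w i * w i - 2 * (M * a) ≤ R - 2 * M ^ 2 := by
    rcases le_total a M with h | h
    · nlinarith
    · nlinarith
  nlinarith

lemma to_real (k : ℕ) :
    ∃ f : (Fin k → ℤ) → EuclideanSpace ℝ (Fin k), Function.Injective f ∧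
      ∀ v w, dist (f v) (f w) = √((∑ i, (v i - w i) ^ 2 : ℤ) : ℝ) := by
  refine ⟨fun v => WithLp.toLp 2 fun i => (v i : ℝ), ?_, ?_⟩
  · intro v w h
    funext i
    have := congrArg (fun x : EuclideanSpace ℝ (Fin k) => x i) h
    simpa using this
  · intro v w
    rw [EuclideanSpace.dist_eq]
    congr 1
    push_cast
    exact sum_congr rfl fun i _ => by rw [Real.dist_eq, sq_abs]

lemma lattice (k L R n : ℕ) (hk : 2 ≤ k) (hR : 4 * ((k + 1) * L) ^ 2 ≤ R) (h1 : sqCount k R < n)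
    (h2 : n ≤ L ^ k) : sqCount k R ∈ D k n := by
  classical
  set Q := (Icc 1 R).filter fun s : ℕ => ∃ v : Fin k → ℤ, ∑ i, v i ^ 2 = (s : ℤ) with hQ
  have hc : sqCount k R = Q.card := by unfold sqCount; congr
  have : ∀ s : ℕ, ∃ w : Fin k → ℤ, s ∈ Q → Good k w ∧ ∑ i, w i * w i = (s : ℤ) := by
    intro s
    by_cases hs : s ∈ Q
    · obtain ⟨v, hv⟩ := (mem_filter.1 hs).2
      obtain ⟨w, hw⟩ := exists_good_rep k hk s v hv
      exact ⟨w, fun _ => hw⟩
    · exact ⟨0, fun h => absurd h hs⟩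
  choose rep hrep using this
  set C : Finset (Fin k → ℤ) := insert 0 (Q.image rep) with hC
  have gC : ∀ w ∈ C, Good k w ∧ ∑ i, w i * w i ≤ (R : ℤ) := by
    intro w hw
    rcases mem_insert.1 hw with rfl | hw
    · refine ⟨⟨0, 0, 0, 0, le_rfl, le_rfl, le_rfl, le_rfl, fun _ => rfl, fun _ => rfl, ?_⟩, by simp⟩
      funext i; simp [vec]
    · obtain ⟨s, hs, rfl⟩ := mem_image.1 hw
      refine ⟨(hrep s hs).1, ?_⟩
      rw [(hrep s hs).2]
      exact_mod_cast (mem_Icc.1 (mem_filter.1 hs).1).2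
  set T := C ∪ box k ((k + 1) * L) L with hT
  have hR' : 4 * ((k + 1) * L : ℤ) ^ 2 ≤ R := by exact_mod_cast hR
  have dT : ∀ v ∈ T, ∀ w ∈ T, ∑ i, (v i - w i) ^ 2 ≤ (R : ℤ) := by
    intro v hv w hw
    rcases mem_union.1 hv with hv | hv <;> rcases mem_union.1 hw with hw | hw
    · exact good_good k hk v w (gC v hv).1 (gC w hw).1 R (gC v hv).2 (gC w hw).2
    · rw [sum_congr rfl (g := fun i => (w i - v i) ^ 2) fun i _ => by ring]
      exact box_good k L hk w v hw (gC v hv).1 R (gC v hv).2 hR'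
    · exact box_good k L hk v w hv (gC w hw).1 R (gC w hw).2 hR'
    · refine (box_box k _ L v w hv hw).trans (le_trans ?_ hR')
      nlinarith [sq_nonneg (L : ℤ), sq_nonneg (k * L : ℤ), (by positivity : (0 : ℤ) ≤ k * L ^ 2)]
  obtain ⟨f, f1, f2⟩ := to_real k
  have s1 : dset (T.image f) ⊆ Q.image fun s : ℕ => √(s : ℝ) := by
    intro d hd
    obtain ⟨_, a, _, b, c, e⟩ := mem_dset.1 hd
    obtain ⟨v, hv, rfl⟩ := mem_image.1 a
    obtain ⟨w, hw, rfl⟩ := mem_image.1 b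
    have p0 : 0 ≤ ∑ i, (v i - w i) ^ 2 := sum_nonneg fun i _ => sq_nonneg _
    obtain ⟨s, hs⟩ := Int.eq_ofNat_of_zero_le p0
    refine mem_image.2 ⟨s, mem_filter.2 ⟨mem_Icc.2 ⟨?_, ?_⟩, ⟨fun i => v i - w i, hs⟩⟩, ?_⟩
    · rcases Nat.eq_zero_or_pos s with rfl | h
      · exfalso
        apply c
        rw [← dist_eq_zero, f2, hs]; simp
      · exact h
    · have := dT v hv w hw
      rw [hs] at this
      exact_mod_cast this
    · rw [← e, f2, hs]; simp
  have s2 : (Q.image fun s : ℕ => √(s : ℝ)) ⊆ dset (C.image f) := by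
    intro d hd
    obtain ⟨s, hs, rfl⟩ := mem_image.1 hd
    have e : ∑ i, (rep s i - (0 : Fin k → ℤ) i) ^ 2 = (s : ℤ) := by
      rw [← (hrep s hs).2]
      exact sum_congr rfl fun i _ => by simp [sq]
    have s0 : 1 ≤ s := (mem_Icc.1 (mem_filter.1 hs).1).1
    refine mem_dset.2 ⟨f (rep s), mem_image_of_mem _ (mem_insert_of_mem (mem_image_of_mem _ hs)),
      f 0, mem_image_of_mem _ (mem_insert_self _ _), fun h => ?_, by rw [f2, e]; simp⟩
    rw [f1 h] at e
    simp at e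
    omega
  have sub : C.image f ⊆ T.image f := image_subset_image subset_union_left
  obtain ⟨U, u1, u2⟩ := between sub (s1.trans s2) n (by
    have a := card_image_le (s := C) (f := f)
    have b := card_insert_le (0 : Fin k → ℤ) (Q.image rep)
    have c := card_image_le (s := Q) (f := rep)
    rw [← hC] at b
    omega) (by
    rw [card_image_of_injective _ f1]
    have := card_le_card (subset_union_right (s₁ := C) (s₂ := box k ((k + 1) * L) L))
    rw [card_box] at this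
    exact h2.trans this)
  refine ⟨U, u1, ?_⟩
  rw [u2, Subset.antisymm s1 (s2.trans (dset_mono sub)), hc]
  apply card_image_of_injective
  intro a b h
  have := (Real.sqrt_inj (Nat.cast_nonneg a) (Nat.cast_nonneg b)).1 h
  exact_mod_cast this

lemma sqCount_succ (k x : ℕ) : sqCount k (x + 1) ≤ sqCount k x + 1 := by
  classical
  unfold sqCount
  refine le_trans (card_le_card (t := insert (x + 1) _) ?_) (card_insert_le _ _)
  intro s hs
  simp only [mem_filter, mem_Icc, mem_insert] at hs ⊢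
  rcases eq_or_ne s (x + 1) with h | h
  · exact Or.inl h
  · exact Or.inr ⟨⟨hs.1.1, by omega⟩, hs.2⟩

lemma sqCount_le (k x : ℕ) : sqCount k x ≤ x := by
  classical
  unfold sqCount
  exact (card_filter_le _ _).trans (by simp)

lemma sqCount_big (k : ℕ) (hk : 1 ≤ k) (m x : ℕ) (h : m ^ 2 ≤ x) : m ≤ sqCount k x := by
  classical
  unfold sqCount
  have : m = (Icc 1 m).card := by simp
  conv_lhs => rw [this]
  apply card_le_card_of_injOn (fun t => t ^ 2)
  · intro t ht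
    obtain ⟨t1, t2⟩ := mem_Icc.1 (mem_coe.1 ht)
    refine mem_coe.2 (mem_filter.2 ⟨mem_Icc.2 ⟨Nat.one_le_pow _ _ t1,
      (Nat.pow_le_pow_left t2 2).trans h⟩, Pi.single ⟨0, hk⟩ (t : ℤ), ?_⟩)
    rw [sum_eq_single ⟨0, hk⟩]
    · simp
    · intro b _ hb
      simp [Pi.single_eq_of_ne hb]
    · simp
  · intro a _ b _ e
    exact Nat.pow_left_injective (by norm_num) e

lemma lower_range (k L n m : ℕ) (hk : 2 ≤ k) (hn : 2 ≤ n) (h2 : n ≤ L ^ k)
    (h3 : sqCount k (4 * ((k + 1) * L) ^ 2) ≤ m) (h4 : m ≤ n.choose 2) : m ∈ D k n := by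
  by_cases hm : n - 1 ≤ m
  · exact upper_range k n m (by omega) hn hm h4
  set R0 := 4 * ((k + 1) * L) ^ 2 with hR0
  have ex : ∃ t, m ≤ sqCount k (R0 + t) := ⟨m ^ 2, sqCount_big k (by omega) m _ (by omega)⟩
  have e : sqCount k (R0 + Nat.find ex) = m := by
    have a := Nat.find_spec ex
    rcases Nat.eq_zero_or_pos (Nat.find ex) with h | h
    · rw [h] at a ⊢
      exact le_antisymm h3 a
    · have b := Nat.find_min ex (m := Nat.find ex - 1) (by omega)
      have c := sqCount_succ k (R0 + (Nat.find ex - 1))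
      rw [show R0 + (Nat.find ex - 1) + 1 = R0 + Nat.find ex by omega] at c
      omega
  rw [← e]
  exact lattice k L _ n hk (by omega) (by omega) h2

end Pool.Agent.H.MP_603301_co
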