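import Pool.Agent.H.MP_603301_co.Latt

set_option autoImplicit false

namespace Pool.Agent.H.MP_603301_co

open Finset

lemma pad (k d : ℕ) : ∃ f : EuclideanSpace ℝ (Fin k) → EuclideanSpace ℝ (Fin (k + d)),
    ∀ x y, dist (f x) (f y) = dist x y := by
  refine ⟨fun x => WithLp.toLp 2 (Fin.append (fun i => x i) (fun _ : Fin d => (0 : ℝ))),
    fun x y => ?_⟩
  rw [EuclideanSpace.dist_eq, EuclideanSpace.dist_eq, Fin.sum_univ_add]
  simp

lemma embed (W : Type) [NormedAddCommGroup W] [InnerProductSpace ℝ W] [FiniteDimensional ℝ W]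
    (k : ℕ) (h : Module.finrank ℝ W ≤ k) :
    ∃ f : W → EuclideanSpace ℝ (Fin k), ∀ x y, dist (f x) (f y) = dist x y := by
  obtain ⟨d, rfl⟩ := Nat.exists_eq_add_of_le h
  obtain ⟨g, hg⟩ := pad (Module.finrank ℝ W) d
  exact ⟨fun x => g ((stdOrthonormalBasis ℝ W).repr x), fun x y => by
    rw [hg, LinearIsometryEquiv.dist_map]⟩

lemma drop {E : Type} [NormedAddCommGroup E] [InnerProductSpace ℝ E] (S : Finset E) (k : ℕ)
    (h : S.card - 1 ≤ k) : (dset S).card ∈ D k S.card := by
  classical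
  rcases S.eq_empty_or_nonempty with rfl | ⟨x0, hx0⟩
  · exact ⟨∅, rfl, by simp [dset]⟩
  set W := Submodule.span ℝ (((S.erase x0).image fun x => x - x0 : Finset E) : Set E) with hW
  haveI : FiniteDimensional ℝ W := FiniteDimensional.span_of_finite ℝ (Finset.finite_toSet _)
  have h1 : Module.finrank ℝ W ≤ k := by
    refine (finrank_span_finset_le_card (R := ℝ) _).trans (card_image_le.trans ?_)
    rw [card_erase_of_mem hx0]; exact h
  obtain ⟨g, hg⟩ := embed W k h1
  have hm : ∀ x ∈ S, x - x0 ∈ W := by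
    intro x hx
    by_cases e : x = x0
    · rw [e, sub_self]; exact W.zero_mem
    · exact Submodule.subset_span (mem_coe.2 (mem_image_of_mem _ (mem_erase.2 ⟨e, hx⟩)))
  obtain ⟨T, t1, t2⟩ := transfer S (fun x => if h : x - x0 ∈ W then g ⟨x - x0, h⟩ else 0) (by
    intro x hx y hy
    simp only [dif_pos (hm x hx), dif_pos (hm y hy)]
    rw [hg, Subtype.dist_eq]
    exact dist_sub_right x y x0)
  exact ⟨T, t1, by rw [t2]⟩

lemma simplex (n t e : ℕ) (he : e ≤ 1) (h0 : 1 ≤ 2 * t + e) (h : t + 1 + e < n) :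
    ∃ S : Finset (EuclideanSpace ℝ (Fin n)), S.card = n ∧ (dset S).card = 2 * t + e := by
  classical
  let b : Fin n → ℕ := fun i => min (i.val - e) t
  let P : Fin n → EuclideanSpace ℝ (Fin n) := fun i =>
    EuclideanSpace.single i √((b i : ℝ) + 1)
  have hd : ∀ i j, i ≠ j → dist (P i) (P j) = √(((b i + b j : ℕ) : ℝ) + 2) := by
    intro i j hij
    rw [EuclideanSpace.dist_eq]
    congr 1
    rw [← Finset.sum_subset (subset_univ {i, j}), sum_pair hij]
    · simp only [P, PiLp.single_apply, if_true, if_neg hij, if_neg hij.symm, Real.dist_eq,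
        sub_zero, zero_sub, sq_abs, neg_sq]
      rw [Real.sq_sqrt (by positivity), Real.sq_sqrt (by positivity)]
      push_cast; ring
    · intro l _ hl
      simp only [mem_insert, mem_singleton, not_or] at hl
      simp [P, hl.1, hl.2]
  have inj : Function.Injective P := by
    intro i j hij
    by_contra hne
    have := hd i j hne
    rw [hij, dist_self] at this
    have p : 0 < √(((b i + b j : ℕ) : ℝ) + 2) := Real.sqrt_pos.2 (by positivity)
    linarith
  refine ⟨univ.image P, by rw [card_image_of_injective _ inj]; simp, ?_⟩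
  have : dset (univ.image P) = (Icc (1 - e) (2 * t)).image fun s : ℕ => √((s : ℝ) + 2) := by
    ext d
    simp only [mem_dset, mem_image, mem_univ, true_and, mem_Icc]
    constructor
    · rintro ⟨_, ⟨i, rfl⟩, _, ⟨j, rfl⟩, c, rfl⟩
      have hij : i ≠ j := fun h => c (h ▸ rfl)
      have hij' : i.val ≠ j.val := fun h => hij (Fin.ext h)
      refine ⟨b i + b j, ⟨?_, ?_⟩, (hd i j hij).symm⟩ <;> simp only [b] <;> omega
    · rintro ⟨s, ⟨s1, s2⟩, rfl⟩
      by_cases hs : s ≤ t
      · have hij : (⟨0, by omega⟩ : Fin n) ≠ ⟨s + e, by omega⟩ := by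
          simp only [ne_eq, Fin.mk.injEq]; omega
        refine ⟨_, ⟨_, rfl⟩, _, ⟨_, rfl⟩, fun h => hij (inj h), ?_⟩
        rw [hd _ _ hij]
        congr 3
        simp only [b]; omega
      · have hij : (⟨s - t + e, by omega⟩ : Fin n) ≠ ⟨t + 1 + e, h⟩ := by
          simp only [ne_eq, Fin.mk.injEq]; omega
        refine ⟨_, ⟨_, rfl⟩, _, ⟨_, rfl⟩, fun h => hij (inj h), ?_⟩
        rw [hd _ _ hij]
        congr 3
        simp only [b]; omega
  rw [this, card_image_of_injective]
  · simp; omega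
  · intro a c h
    have := (Real.sqrt_inj (by positivity) (by positivity)).1 h
    exact_mod_cast (add_right_cancel this)

lemma high_dim (k n : ℕ) (hn : 2 ≤ n) (hk : n - 1 ≤ k) : D k n = Set.Icc 1 (n.choose 2) := by
  ext m
  constructor
  · rintro ⟨S, s1, s2⟩
    have a := nd_pos S (by omega)
    have b := nd_le S
    rw [s1, s2] at b
    exact ⟨s2 ▸ a, b⟩
  · rintro ⟨h1, h2⟩
    by_cases hm : n - 1 ≤ m
    · exact upper_range k n m (by omega) hn hm h2
    obtain ⟨S, s1, s2⟩ := simplex n (m / 2) (m % 2) (by omega) (by omega) (by omega)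
    have := drop S k (by omega)
    rwa [s1, s2, show 2 * (m / 2) + m % 2 = m by omega] at this

lemma polygon (k n m : ℕ) (hk : 2 ≤ k) (h1 : m + 1 ≤ n) (h2 : n ≤ 2 * m + 1) : m ∈ D k n := by
  classical
  set N : ℕ := 2 * m + 1 with hN
  have hN0 : (0 : ℝ) < N := by positivity
  let z : ℕ → ℂ := fun j => Complex.exp (Complex.I * ((2 * Real.pi * j / N : ℝ) : ℂ))
  let g : ℕ → ℝ := fun d => 2 * Real.sin (Real.pi * d / N)
  have gpos : ∀ d : ℕ, d ≤ N → 0 ≤ g d := by
    intro d hd
    have : (d : ℝ) ≤ N := by exact_mod_cast hd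
    apply mul_nonneg zero_le_two
    apply Real.sin_nonneg_of_nonneg_of_le_pi (by positivity)
    rw [div_le_iff₀ hN0]
    nlinarith [Real.pi_pos]
  have hd : ∀ i d : ℕ, d ≤ N → dist (z (i + d)) (z i) = g d := by
    intro i d hd
    have e : z (i + d) - z i =
        z i * (Complex.exp (Complex.I * ((2 * Real.pi * d / N : ℝ) : ℂ)) - 1) := by
      simp only [z]
      rw [mul_sub, mul_one, ← Complex.exp_add]
      congr 2
      push_cast; ring
    rw [dist_eq_norm, e, norm_mul, Complex.norm_exp_I_mul_ofReal, one_mul,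
      Complex.norm_exp_I_mul_ofReal_sub_one, Real.norm_eq_abs,
      show 2 * Real.pi * d / N / 2 = Real.pi * d / N by ring]
    exact abs_of_nonneg (gpos d hd)
  have gsym : ∀ d : ℕ, d ≤ N → g (N - d) = g d := by
    intro d hd
    simp only [g]
    rw [Nat.cast_sub hd, ← Real.sin_pi_sub]
    congr 2
    field_simp
    ring
  have gmono : ∀ a b : ℕ, a < b → b ≤ m → g a < g b := by
    intro a b hab hb
    have a1 : (a : ℝ) < b := by exact_mod_cast hab
    have a2 : (2 * b : ℝ) ≤ N := by exact_mod_cast (by omega : 2 * b ≤ N)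
    apply mul_lt_mul_of_pos_left _ zero_lt_two
    apply Real.sin_lt_sin_of_lt_of_le_pi_div_two
    · have : 0 ≤ Real.pi * a / N := by positivity
      linarith [Real.pi_pos]
    · rw [div_le_iff₀ hN0]
      nlinarith [Real.pi_pos]
    · apply div_lt_div_of_pos_right _ hN0
      nlinarith [Real.pi_pos]
  have g0 : g 0 = 0 := by simp [g]
  have red : ∀ d : ℕ, 1 ≤ d → d < N → ∃ s, 1 ≤ s ∧ s ≤ m ∧ g s = g d := by
    intro d d1 d2
    by_cases h : d ≤ m
    · exact ⟨d, d1, h, rfl⟩
    · exact ⟨N - d, by omega, by omega, gsym d d2.le⟩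
  have inj : Set.InjOn z (range N) := by
    have aux : ∀ i j, i < j → j < N → z i ≠ z j := by
      intro i j hij hj e
      obtain ⟨s, s1, s2, s3⟩ := red (j - i) (by omega) (by omega)
      have a := hd i (j - i) (by omega)
      rw [show i + (j - i) = j by omega, e, dist_self, ← s3] at a
      have := gmono 0 s s1 s2
      linarith
    intro i hi j hj e
    rcases lt_trichotomy i j with h | h | h
    · exact absurd e (aux i j h (by simpa using hj))
    · exact h
    · exact absurd e.symm (aux j i h (by simpa using hi))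
  have s1 : dset ((range N).image z) ⊆ (Icc 1 m).image g := by
    intro d hd'
    obtain ⟨_, a, _, b, c, e⟩ := mem_dset.1 hd'
    obtain ⟨i, hi, rfl⟩ := mem_image.1 a
    obtain ⟨j, hj, rfl⟩ := mem_image.1 b
    rw [mem_range] at hi hj
    have hij : i ≠ j := fun h => c (h ▸ rfl)
    rcases lt_or_gt_of_ne hij with h | h
    · obtain ⟨s, s1, s2, s3⟩ := red (j - i) (by omega) (by omega)
      have a := hd i (j - i) (by omega)
      rw [show i + (j - i) = j by omega, dist_comm] at a
      exact mem_image.2 ⟨s, mem_Icc.2 ⟨s1, s2⟩, by rw [s3, ← a, e]⟩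
    · obtain ⟨s, s1, s2, s3⟩ := red (i - j) (by omega) (by omega)
      have a := hd j (i - j) (by omega)
      rw [show j + (i - j) = i by omega] at a
      exact mem_image.2 ⟨s, mem_Icc.2 ⟨s1, s2⟩, by rw [s3, ← a, e]⟩
  have s2 : (Icc 1 m).image g ⊆ dset ((range (m + 1)).image z) := by
    intro d hd'
    obtain ⟨s, hs, rfl⟩ := mem_image.1 hd'
    obtain ⟨s1, s2⟩ := mem_Icc.1 hs
    refine mem_dset.2 ⟨z s, mem_image_of_mem _ (by simp; omega), z 0,
      mem_image_of_mem _ (by simp), fun h => ?_, by simpa using hd 0 s (by omega)⟩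
    have := inj (by simp; omega) (by simp; omega) h
    omega
  have sub : (range (m + 1)).image z ⊆ (range N).image z :=
    image_subset_image (range_subset_range.2 (by omega))
  obtain ⟨U, u1, u2⟩ := between sub (s1.trans s2) n (card_image_le.trans (by simpa using h1))
    (by rw [card_image_of_injOn inj, card_range]; exact h2)
  obtain ⟨f, hf⟩ := embed ℂ k (by rw [Complex.finrank_real_complex]; exact hk)
  obtain ⟨T, t1, t2⟩ := transfer U f (fun x _ y _ => hf x y)
  refine ⟨T, t1.trans u1, ?_⟩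
  rw [t2, u2, Subset.antisymm s1 (s2.trans (dset_mono sub)), card_image_of_injOn]
  · simp
  · intro a ha b hb e
    have ha' := (mem_Icc.1 (mem_coe.1 ha)).2
    have hb' := (mem_Icc.1 (mem_coe.1 hb)).2
    rcases lt_trichotomy a b with h | h | h
    · exact absurd e (gmono a b h hb').ne
    · exact h
    · exact absurd e.symm (gmono b a h ha').ne

lemma power_range (k n m : ℕ) (hk : 2 ≤ k) (hn : 2 ≤ n)
    (h : 16 * ((k : ℝ) + 1) ^ 2 * (n : ℝ) ^ ((2 : ℝ) / k) ≤ m) (h4 : m ≤ n.choose 2) :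
    m ∈ D k n := by
  have ex : ∃ L, n ≤ L ^ k := ⟨n, Nat.le_self_pow (by omega) n⟩
  have a := Nat.find_spec ex
  set L := Nat.find ex with hL
  have L2 : 2 ≤ L := by
    by_contra hc
    have : L ^ k ≤ 1 ^ k := Nat.pow_le_pow_left (by omega) k
    rw [one_pow] at this
    omega
  have b : (L - 1) ^ k < n := not_le.1 (Nat.find_min ex (m := L - 1) (by omega))
  refine lower_range k L n m hk hn a ((sqCount_le _ _).trans ?_) h4
  have k0 : (0 : ℝ) < k := by positivity
  have c : (((L - 1 : ℕ) : ℝ)) ^ 2 ≤ (n : ℝ) ^ ((2 : ℝ) / k) := by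
    have b' : (((L - 1 : ℕ) : ℝ)) ^ k ≤ n := by exact_mod_cast b.le
    have := Real.rpow_le_rpow (by positivity) b' (by positivity : 0 ≤ (2 : ℝ) / k)
    rw [← Real.rpow_natCast, ← Real.rpow_mul (by positivity), mul_div_cancel₀ _ k0.ne'] at this
    exact_mod_cast this
  have d : (L : ℝ) ≤ 2 * ((L - 1 : ℕ) : ℝ) := by exact_mod_cast (by omega : L ≤ 2 * (L - 1))
  have e : (L : ℝ) ^ 2 ≤ 4 * (n : ℝ) ^ ((2 : ℝ) / k) := by
    have : (L : ℝ) ^ 2 ≤ (2 * ((L - 1 : ℕ) : ℝ)) ^ 2 := pow_le_pow_left₀ (by positivity) d 2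
    linarith
  have f : ((4 * ((k + 1) * L) ^ 2 : ℕ) : ℝ) ≤ m := by
    push_cast
    refine le_trans ?_ h
    have := mul_le_mul_of_nonneg_left e (by positivity : 0 ≤ 4 * ((k : ℝ) + 1) ^ 2)
    linarith
  exact_mod_cast f

end Pool.Agent.H.MP_603301_co
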